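import Pool.Agent.Helper27.UC.Goals

/-!
PROJECT UC, packet SHF: formal properties of translations and linear substitutions (helper9).
-/

set_option autoImplicit false

noncomputable section

namespace Pool.Agent.Helper9.UC.SHF

open Polynomial Pool.Agent.Helper27.UC

variable {K : Type} [Field K]

theorem cof_add (i j : ℕ) (f g : R2 K) : cof i j (f + g) = cof i j f + cof i j g := by
  unfold cof; rw [Polynomial.coeff_add, Polynomial.coeff_add]

theorem cof_smul (i j : ℕ) (c : K) (f : R2 K) : cof i j (c • f) = c * cof i j f := by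
  unfold cof; rw [Polynomial.coeff_smul, Polynomial.coeff_smul, smul_eq_mul]

theorem cof_sub (i j : ℕ) (f g : R2 K) : cof i j (f - g) = cof i j f - cof i j g := by
  unfold cof; rw [Polynomial.coeff_sub, Polynomial.coeff_sub]

theorem cof_zero (i j : ℕ) : cof i j (0 : R2 K) = 0 := by
  unfold cof; rw [Polynomial.coeff_zero, Polynomial.coeff_zero]

theorem cof_sum {ι : Type} (s : Finset ι) (i j : ℕ) (f : ι → R2 K) :
    cof i j (∑ k ∈ s, f k) = ∑ k ∈ s, cof i j (f k) := by
  unfold cof; rw [Polynomial.finsetSum_coeff, Polynomial.finsetSum_coeff]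

theorem cof_ext {f g : R2 K} (h : ∀ i j, cof i j f = cof i j g) : f = g := by
  apply Polynomial.ext; intro j
  apply Polynomial.ext; intro i
  exact h i j

/-- monomials -/
def mon (a b : ℕ) (c : K) : R2 K := Polynomial.monomial b (Polynomial.monomial a c)

theorem cof_mon (i j a b : ℕ) (c : K) : cof i j (mon a b c) = if a = i ∧ b = j then c else 0 := by
  unfold cof mon
  rw [Polynomial.coeff_monomial]
  by_cases hb : b = j
  · rw [if_pos hb, Polynomial.coeff_monomial]
    by_cases ha : a = i
    · rw [if_pos ha, if_pos ⟨ha, hb⟩]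
    · rw [if_neg ha, if_neg (fun h => ha h.1)]
  · rw [if_neg hb, if_neg (fun h => hb h.2), Polynomial.coeff_zero]

theorem mon_eq (a b : ℕ) (c : K) : mon a b c = C (C c) * ((C X) ^ a * X ^ b) := by
  unfold mon
  rw [← Polynomial.C_mul_X_pow_eq_monomial, ← Polynomial.C_mul_X_pow_eq_monomial, map_mul, map_pow,
    mul_assoc]

theorem mon_smul (a b : ℕ) (c : K) : mon a b c = c • mon a b 1 := by
  unfold mon
  rw [Polynomial.smul_monomial, Polynomial.smul_monomial, smul_eq_mul, mul_one]

theorem CC_smul (c : K) (f : R2 K) : C (C c) * f = c • f := by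
  apply cof_ext; intro i j
  rw [cof_smul]
  unfold cof
  rw [Polynomial.coeff_C_mul, Polynomial.coeff_C_mul]

/-- induction on monomials -/
theorem ind {P : R2 K → Prop} (_h0 : P 0) (ha : ∀ f g, P f → P g → P (f + g))
    (hm : ∀ (a b : ℕ) (c : K), P (mon a b c)) (f : R2 K) : P f := by
  induction f using Polynomial.induction_on' with
  | add p q hp hq => exact ha p q hp hq
  | monomial n a =>
    induction a using Polynomial.induction_on' with
    | add p q hp hq => rw [map_add]; exact ha _ _ hp hq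
    | monomial m c => exact hm m n c

/-- linear maps agreeing on monomials with coefficient one are equal -/
theorem lin_ext {M : Type} [AddCommGroup M] [Module K M] {F G : R2 K →ₗ[K] M}
    (h : ∀ a b, F (mon a b 1) = G (mon a b 1)) : F = G := by
  apply LinearMap.ext
  intro f
  refine ind (P := fun f => F f = G f) ?_ ?_ ?_ f
  · rw [map_zero, map_zero]
  · intro f g hf hg; rw [map_add, map_add, hf, hg]
  · intro a b c; rw [mon_smul, map_smul, map_smul, h]

theorem subt_t (A B : R2 K) : subt A B (C X) = A := by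
  unfold subt
  simp

theorem subt_s (A B : R2 K) : subt A B X = B := by
  unfold subt
  simp

theorem alg_ext {F G : R2 K →ₐ[K] R2 K} (h1 : F (C X) = G (C X)) (h2 : F X = G X) : F = G := by
  apply AlgHom.ext
  intro f
  have : F.toLinearMap = G.toLinearMap := by
    apply lin_ext
    intro a b
    have e : mon a b (1 : K) = (C X) ^ a * X ^ b := by rw [mon_eq]; simp
    rw [e, AlgHom.toLinearMap_apply, AlgHom.toLinearMap_apply, map_mul, map_mul, map_pow, map_pow,
      map_pow, map_pow, h1, h2]
  exact LinearMap.congr_fun this f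

theorem alg_CC (F : R2 K →ₐ[K] R2 K) (c : K) : F (C (C c)) = C (C c) := by
  have : (C (C c) : R2 K) = algebraMap K (R2 K) c := by
    rfl
  rw [this]
  exact F.commutes c

theorem sh_t (u v : K) : sh u v (C X : R2 K) = C X + C (C u) := subt_t _ _
theorem sh_s (u v : K) : sh u v (X : R2 K) = X + C (C v) := subt_s _ _

/-- the homogeneous elements of degree `n` -/
def Hm (n : ℕ) : Submodule K (R2 K) where
  carrier := {f | ∀ i j, i + j ≠ n → cof i j f = 0}
  add_mem' := by
    intro a b ha hb i j h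
    rw [cof_add, ha i j h, hb i j h, add_zero]
  zero_mem' := by
    intro i j _
    exact cof_zero i j
  smul_mem' := by
    intro c a ha i j h
    rw [cof_smul, ha i j h, mul_zero]

/-- the elements of degree less than `n` -/
def LD (n : ℕ) : Submodule K (R2 K) where
  carrier := {f | ∀ i j, n ≤ i + j → cof i j f = 0}
  add_mem' := by
    intro a b ha hb i j h
    rw [cof_add, ha i j h, hb i j h, add_zero]
  zero_mem' := by
    intro i j _
    exact cof_zero i j
  smul_mem' := by
    intro c a ha i j h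
    rw [cof_smul, ha i j h, mul_zero]

theorem cof_t_zero (j : ℕ) (f : R2 K) : cof 0 j (C X * f) = 0 := by
  unfold cof
  rw [Polynomial.coeff_C_mul, Polynomial.coeff_X_mul_zero]

theorem cof_t_succ (i j : ℕ) (f : R2 K) : cof (i + 1) j (C X * f) = cof i j f := by
  unfold cof
  rw [Polynomial.coeff_C_mul, Polynomial.coeff_X_mul]

theorem cof_s_zero (i : ℕ) (f : R2 K) : cof i 0 (X * f) = 0 := by
  unfold cof
  rw [Polynomial.coeff_X_mul_zero, Polynomial.coeff_zero]

theorem cof_s_succ (i j : ℕ) (f : R2 K) : cof i (j + 1) (X * f) = cof i j f := by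
  unfold cof
  rw [Polynomial.coeff_X_mul]

theorem Hm_t {n : ℕ} {f : R2 K} (h : f ∈ Hm n) : C X * f ∈ Hm (n + 1) := by
  intro i j hij
  rcases i with _ | i
  · exact cof_t_zero j f
  · rw [cof_t_succ]; exact h i j (by omega)

theorem Hm_s {n : ℕ} {f : R2 K} (h : f ∈ Hm n) : X * f ∈ Hm (n + 1) := by
  intro i j hij
  rcases j with _ | j
  · exact cof_s_zero i f
  · rw [cof_s_succ]; exact h i j (by omega)

theorem lin_mul (p q : K) (f : R2 K) : lin p q * f = p • (C X * f) + q • (X * f) := by
  unfold lin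
  rw [← CC_smul p, ← CC_smul q, add_mul, map_mul]
  ring

theorem Hm_lin {n : ℕ} {f : R2 K} (p q : K) (h : f ∈ Hm n) : lin p q * f ∈ Hm (n + 1) := by
  rw [lin_mul]
  exact Submodule.add_mem _ (Submodule.smul_mem _ _ (Hm_t h)) (Submodule.smul_mem _ _ (Hm_s h))

theorem LD_t {n : ℕ} {f : R2 K} (h : f ∈ LD n) : C X * f ∈ LD (n + 1) := by
  intro i j hij
  rcases i with _ | i
  · exact cof_t_zero j f
  · rw [cof_t_succ]; exact h i j (by omega)

theorem LD_s {n : ℕ} {f : R2 K} (h : f ∈ LD n) : X * f ∈ LD (n + 1) := by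
  intro i j hij
  rcases j with _ | j
  · exact cof_s_zero i f
  · rw [cof_s_succ]; exact h i j (by omega)

theorem Hm_one : (1 : R2 K) ∈ Hm 0 := by
  intro i j hij
  have e : (1 : R2 K) = mon 0 0 1 := by rw [mon_eq]; simp
  rw [e, cof_mon, if_neg]
  omega

theorem mon_one_eq (a b : ℕ) : mon a b (1 : K) = (C X) ^ a * X ^ b := by
  rw [mon_eq]; simp

theorem Hm_pow (p0 q0 p1 q1 : K) (a b : ℕ) : lin p0 q0 ^ a * lin p1 q1 ^ b ∈ Hm (K := K) (a + b) := by
  induction a with
  | zero =>
    rw [pow_zero, one_mul]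
    induction b with
    | zero => rw [pow_zero]; exact Hm_one
    | succ b ih =>
      rw [pow_succ', ← add_assoc]
      exact Hm_lin _ _ ih
  | succ a ih =>
    rw [pow_succ', mul_assoc, show a + 1 + b = a + b + 1 by ring]
    exact Hm_lin _ _ ih

theorem subt_mon (A B : R2 K) (a b : ℕ) (c : K) : subt A B (mon a b c) = c • (A ^ a * B ^ b) := by
  rw [mon_smul, map_smul, mon_one_eq, map_mul, map_pow, map_pow, subt_t, subt_s]

theorem subt_mon_Hm (p0 q0 p1 q1 : K) (a b : ℕ) (c : K) :
    subt (lin p0 q0) (lin p1 q1) (mon a b c) ∈ Hm (a + b) := by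
  rw [subt_mon]
  exact Submodule.smul_mem _ _ (Hm_pow _ _ _ _ _ _)

theorem mon_Hm (a b : ℕ) (c : K) : mon a b c ∈ Hm (K := K) (a + b) := by
  intro i j hij
  rw [cof_mon, if_neg]
  rintro ⟨rfl, rfl⟩
  exact hij rfl

/-- coefficients of the homogeneous parts -/
theorem cof_hc (k i j : ℕ) (f : R2 K) : cof i j (hc k f) = if i + j = k then cof i j f else 0 := by
  change cof i j (∑ l ∈ Finset.range (k + 1), mon (k - l) l (cof (k - l) l f)) = _
  rw [cof_sum]
  simp_rw [cof_mon]
  by_cases h : i + j = k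
  · rw [if_pos h, Finset.sum_eq_single j]
    · rw [if_pos ⟨by omega, rfl⟩, show k - j = i by omega]
    · intro l _ hl
      rw [if_neg (fun h => hl h.2)]
    · intro hj
      exact absurd (Finset.mem_range.2 (by omega)) hj
  · rw [if_neg h]
    apply Finset.sum_eq_zero
    intro l hl
    rw [Finset.mem_range] at hl
    rw [if_neg]
    rintro ⟨h1, h2⟩
    omega

theorem hc_Hm (k : ℕ) (f : R2 K) : hc k f ∈ Hm k := by
  intro i j hij
  rw [cof_hc, if_neg hij]

theorem hc_of_Hm {n : ℕ} (k : ℕ) {f : R2 K} (h : f ∈ Hm n) : hc k f = if n = k then f else 0 := by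
  apply cof_ext
  intro i j
  rw [cof_hc]
  by_cases hk : n = k
  · rw [if_pos hk]
    by_cases hij : i + j = k
    · rw [if_pos hij]
    · rw [if_neg hij, h i j (by omega)]
  · rw [if_neg hk, cof_zero]
    by_cases hij : i + j = k
    · rw [if_pos hij, h i j (by omega)]
    · rw [if_neg hij]

/-- part 8 -/
theorem hc_subt (k : ℕ) (f : R2 K) (p0 q0 p1 q1 : K) : hc k (subt (lin p0 q0) (lin p1 q1) f) =
    subt (lin p0 q0) (lin p1 q1) (hc k f) := by
  have : (hc k) ∘ₗ (subt (lin p0 q0) (lin p1 q1)).toLinearMap =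
      (subt (lin p0 q0) (lin p1 q1)).toLinearMap ∘ₗ (hc k) := by
    apply lin_ext
    intro a b
    rw [LinearMap.comp_apply, LinearMap.comp_apply, AlgHom.toLinearMap_apply,
      AlgHom.toLinearMap_apply, hc_of_Hm k (subt_mon_Hm p0 q0 p1 q1 a b 1),
      hc_of_Hm k (mon_Hm a b (1 : K))]
    by_cases h : a + b = k
    · rw [if_pos h, if_pos h]
    · rw [if_neg h, if_neg h, map_zero]
  exact LinearMap.congr_fun this f

/-- the coefficients of the image only depend on the homogeneous part -/
theorem cof_subt (i j : ℕ) (f : R2 K) (p0 q0 p1 q1 : K) (h : hc (i + j) f = 0) :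
    cof i j (subt (lin p0 q0) (lin p1 q1) f) = 0 := by
  have h1 := cof_hc (i + j) i j (subt (lin p0 q0) (lin p1 q1) f)
  rw [if_pos rfl, hc_subt, h, map_zero, cof_zero] at h1
  exact h1.symm

theorem hc_eq_zero (k : ℕ) (f : R2 K) (h : ∀ i j, i + j = k → cof i j f = 0) : hc k f = 0 := by
  apply cof_ext
  intro i j
  rw [cof_hc, cof_zero]
  by_cases hij : i + j = k
  · rw [if_pos hij, h i j hij]
  · rw [if_neg hij]

/-- `f` is the sum of its homogeneous parts -/
theorem sum_hc (D : ℕ) (f : R2 K) (hf : f ∈ De D) : f = ∑ k ∈ Finset.range (D + 1), hc k f := by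
  apply cof_ext
  intro i j
  rw [cof_sum]
  simp_rw [cof_hc]
  by_cases h : i + j ≤ D
  · rw [Finset.sum_eq_single (i + j), if_pos rfl]
    · intro k _ hk
      rw [if_neg (fun h => hk h.symm)]
    · intro hk
      exact absurd (Finset.mem_range.2 (by omega)) hk
  · rw [Finset.sum_eq_zero]
    · exact hf i j (by omega)
    · intro k hk
      rw [Finset.mem_range] at hk
      rw [if_neg (by omega)]

/-- scaling -/
def sg (ε : K) : R2 K →ₐ[K] R2 K := subt (C (C ε * X)) (C (C ε) * X)

theorem sg_t (ε : K) : sg ε (C X : R2 K) = C (C ε) * C X := by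
  unfold sg; rw [subt_t, map_mul]

theorem sg_s (ε : K) : sg ε (X : R2 K) = C (C ε) * X := subt_s _ _

theorem sg_mon (ε : K) (a b : ℕ) : sg ε (mon a b (1 : K)) = ε ^ (a + b) • mon a b (1 : K) := by
  rw [mon_one_eq, map_mul, map_pow, map_pow, sg_t, sg_s, ← CC_smul]
  rw [map_pow, map_pow]
  ring

theorem cof_sg (ε : K) (i j : ℕ) (f : R2 K) : cof i j (sg ε f) = ε ^ (i + j) * cof i j f := by
  refine ind (P := fun f => cof i j (sg ε f) = ε ^ (i + j) * cof i j f) ?_ ?_ ?_ f
  · rw [map_zero, cof_zero, mul_zero]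
  · intro f g hf hg
    rw [map_add, cof_add, cof_add, hf, hg, mul_add]
  · intro a b c
    rw [mon_smul, map_smul, sg_mon, cof_smul, cof_smul, cof_smul, cof_mon]
    by_cases h : a = i ∧ b = j
    · obtain ⟨rfl, rfl⟩ := h
      rw [if_pos ⟨rfl, rfl⟩]
      ring
    · rw [if_neg h]
      ring

theorem sg_Hm (ε : K) (k : ℕ) (f : R2 K) (h : f ∈ Hm k) : sg ε f = ε ^ k • f := by
  apply cof_ext
  intro i j
  rw [cof_sg, cof_smul]
  by_cases hij : i + j = k
  · rw [hij]
  · rw [h i j hij, mul_zero, mul_zero]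

theorem sg_sh (ε u v : K) (f : R2 K) : sg ε (sh (ε * u) (ε * v) f) = sh u v (sg ε f) := by
  have : (sg ε).comp (sh (ε * u) (ε * v)) = (sh u v).comp (sg ε) := by
    apply alg_ext
    · rw [AlgHom.comp_apply, AlgHom.comp_apply, sh_t, sg_t, map_add (sg ε), sg_t, alg_CC,
        map_mul (sh u v), sh_t, alg_CC, C_mul, C_mul]
      ring
    · rw [AlgHom.comp_apply, AlgHom.comp_apply, sh_s, sg_s, map_add (sg ε), sg_s, alg_CC,
        map_mul (sh u v), sh_s, alg_CC, C_mul, C_mul]
      ring
  exact AlgHom.congr_fun this f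

/-- part 3 -/
theorem part3 (D : ℕ) (f : R2 K) (ε u v : K) (i j : ℕ) (hf : f ∈ De D) :
    ε ^ (i + j) * cof i j (sh (ε * u) (ε * v) f) =
      ∑ k ∈ Finset.range (D + 1), ε ^ k * cof i j (sh u v (hc k f)) := by
  rw [← cof_sg, sg_sh]
  conv_lhs => rw [sum_hc D f hf]
  rw [map_sum, map_sum, cof_sum]
  refine Finset.sum_congr rfl fun k _ => ?_
  rw [sg_Hm ε k _ (hc_Hm k f), map_smul, cof_smul]

theorem mon_LD (a b : ℕ) (c : K) : mon a b c ∈ LD (K := K) (a + b + 1) := by
  intro i j hij
  rw [cof_mon, if_neg]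
  rintro ⟨rfl, rfl⟩
  omega

theorem LD_mono {m n : ℕ} (h : m ≤ n) {f : R2 K} (hf : f ∈ LD m) : f ∈ LD n :=
  fun i j hij => hf i j (le_trans h hij)

theorem sh_mon_sub (u v : K) (a b : ℕ) : sh u v (mon a b (1 : K)) - mon a b (1 : K) ∈ LD (a + b) := by
  rw [mon_one_eq, map_mul, map_pow, map_pow, sh_t, sh_s]
  induction a with
  | zero =>
    rw [pow_zero, one_mul, pow_zero, one_mul]
    induction b with
    | zero =>
      rw [pow_zero, pow_zero, sub_self]
      exact Submodule.zero_mem _
    | succ b ih =>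
      have h1 : (X : R2 K) ^ b ∈ LD (b + 1) := by
        have := mon_LD 0 b (1 : K)
        rw [mon_one_eq, pow_zero, one_mul, zero_add] at this
        exact this
      rw [zero_add] at ih
      have e : ((X : R2 K) + C (C v)) ^ (b + 1) - X ^ (b + 1) =
          X * (((X : R2 K) + C (C v)) ^ b - X ^ b) + v • ((((X : R2 K) + C (C v)) ^ b - X ^ b)) +
            v • X ^ b := by
        rw [← CC_smul, ← CC_smul]
        ring
      rw [e, zero_add]
      refine Submodule.add_mem _ (Submodule.add_mem _ (LD_s ih) (Submodule.smul_mem _ _ ?_))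
        (Submodule.smul_mem _ _ h1)
      exact LD_mono (Nat.le_succ b) ih
  | succ a ih =>
    have h1 : ((C X : R2 K)) ^ a * X ^ b ∈ LD (a + b + 1) := by
      have := mon_LD a b (1 : K)
      rw [mon_one_eq] at this
      exact this
    have e : ((C X : R2 K) + C (C u)) ^ (a + 1) * (X + C (C v)) ^ b - (C X) ^ (a + 1) * X ^ b =
        C X * (((C X : R2 K) + C (C u)) ^ a * (X + C (C v)) ^ b - (C X) ^ a * X ^ b) +
        u • (((C X : R2 K) + C (C u)) ^ a * (X + C (C v)) ^ b - (C X) ^ a * X ^ b) +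
        u • ((C X) ^ a * X ^ b) := by
      rw [← CC_smul, ← CC_smul]
      ring
    rw [e, show a + 1 + b = a + b + 1 by ring]
    refine Submodule.add_mem _ (Submodule.add_mem _ (LD_t ih) (Submodule.smul_mem _ _ ?_))
      (Submodule.smul_mem _ _ h1)
    exact LD_mono (Nat.le_succ _) ih

/-- every element of `De D` is a sum of monomials of degree at most `D` -/
theorem De_ind {P : R2 K → Prop} {D : ℕ} (h0 : P 0) (ha : ∀ f g, P f → P g → P (f + g))
    (hm : ∀ (a b : ℕ) (c : K), a + b ≤ D → P (mon a b c)) (f : R2 K) (hf : f ∈ De D) : P f := by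
  have hs : ∀ (s : Finset ℕ) (g : ℕ → R2 K), (∀ i ∈ s, P (g i)) → P (∑ i ∈ s, g i) := by
    intro s g hg
    classical
    induction s using Finset.induction_on with
    | empty => rw [Finset.sum_empty]; exact h0
    | insert a s has ih =>
      rw [Finset.sum_insert has]
      exact ha _ _ (hg a (Finset.mem_insert_self a s))
        (ih fun i hi => hg i (Finset.mem_insert_of_mem hi))
  rw [sum_hc D f hf]
  apply hs
  intro k hk
  rw [Finset.mem_range] at hk
  change P (∑ l ∈ Finset.range (k + 1), mon (k - l) l (cof (k - l) l f))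
  apply hs
  intro l hl
  rw [Finset.mem_range] at hl
  exact hm _ _ _ (by omega)

theorem sh_sub (D : ℕ) (f : R2 K) (u v : K) (hf : f ∈ De D) : sh u v f - f ∈ LD D := by
  refine De_ind (P := fun f => sh u v f - f ∈ LD D) ?_ ?_ ?_ f hf
  · rw [map_zero, sub_zero]; exact Submodule.zero_mem _
  · intro f g hf hg
    rw [map_add, show sh u v f + sh u v g - (f + g) = (sh u v f - f) + (sh u v g - g) by ring]
    exact Submodule.add_mem _ hf hg
  · intro a b c hab
    rw [mon_smul, map_smul, ← smul_sub]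
    exact Submodule.smul_mem _ _ (LD_mono hab (sh_mon_sub u v a b))

theorem part7 (D : ℕ) (f : R2 K) (u v : K) (hf : f ∈ De D) : sh u v f ∈ De D ∧
    ∀ i j, i + j = D → cof i j (sh u v f) = cof i j f := by
  have h := sh_sub D f u v hf
  constructor
  · intro i j hij
    have h1 := h i j (by omega)
    rw [cof_sub, hf i j hij, sub_zero] at h1
    exact h1
  · intro i j hij
    have h1 := h i j (by omega)
    rw [cof_sub] at h1
    exact sub_eq_zero.1 h1

theorem subt_CC (A B : R2 K) (c : K) : subt A B (C (C c)) = C (C c) := alg_CC _ c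

theorem subt_lin (A B : R2 K) (p q : K) : subt A B (lin p q) = C (C p) * A + C (C q) * B := by
  unfold lin
  rw [map_add, map_mul, map_mul, map_mul, subt_t, subt_s, alg_CC, alg_CC]

theorem sh_lin (u v p q : K) : sh u v (lin p q) = lin p q + C (C (u * p + v * q)) := by
  unfold sh
  rw [subt_lin]
  unfold lin
  rw [map_mul, map_add, map_mul, map_mul, map_add, map_mul, map_mul]
  ring

theorem part9 (f : R2 K) (p0 q0 p1 q1 e e' : K) : sh e e' (subt (lin p0 q0) (lin p1 q1) f) =
    subt (lin p0 q0) (lin p1 q1) (sh (e * p0 + e' * q0) (e * p1 + e' * q1) f) := by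
  have : (sh e e').comp (subt (lin p0 q0) (lin p1 q1)) =
      (subt (lin p0 q0) (lin p1 q1)).comp (sh (e * p0 + e' * q0) (e * p1 + e' * q1)) := by
    apply alg_ext
    · rw [AlgHom.comp_apply, AlgHom.comp_apply, subt_t, sh_lin, sh_t,
        map_add (subt (lin p0 q0) (lin p1 q1)), subt_t, subt_CC]
    · rw [AlgHom.comp_apply, AlgHom.comp_apply, subt_s, sh_lin, sh_s,
        map_add (subt (lin p0 q0) (lin p1 q1)), subt_s, subt_CC]
  exact AlgHom.congr_fun this f

theorem part6 (f : R2 K) (p0 q0 p1 q1 : K) (hd : p0 * q1 - p1 * q0 ≠ 0)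
    (h : subt (lin p0 q0) (lin p1 q1) f = 0) : f = 0 := by
  set d := p0 * q1 - p1 * q0 with hdd
  have : (subt (lin (q1 / d) (-q0 / d)) (lin (-p1 / d) (p0 / d))).comp
      (subt (lin p0 q0) (lin p1 q1)) = AlgHom.id K (R2 K) := by
    apply alg_ext
    · rw [AlgHom.comp_apply, subt_t, subt_lin, AlgHom.id_apply]
      have e1 : p0 * (q1 / d) + q0 * (-p1 / d) = 1 := by
        field_simp
        rw [hdd]; ring
      have e2 : p0 * (-q0 / d) + q0 * (p0 / d) = 0 := by
        field_simp
        ring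
      have : C (C p0) * lin (q1 / d) (-q0 / d) + C (C q0) * lin (-p1 / d) (p0 / d) =
          lin (p0 * (q1 / d) + q0 * (-p1 / d)) (p0 * (-q0 / d) + q0 * (p0 / d)) := by
        unfold lin
        simp only [map_mul, map_add]
        ring
      rw [this, e1, e2]
      unfold lin
      simp
    · rw [AlgHom.comp_apply, subt_s, subt_lin, AlgHom.id_apply]
      have e1 : p1 * (q1 / d) + q1 * (-p1 / d) = 0 := by
        field_simp
        ring
      have e2 : p1 * (-q0 / d) + q1 * (p0 / d) = 1 := by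
        field_simp
        rw [hdd]; ring
      have : C (C p1) * lin (q1 / d) (-q0 / d) + C (C q1) * lin (-p1 / d) (p0 / d) =
          lin (p1 * (q1 / d) + q1 * (-p1 / d)) (p1 * (-q0 / d) + q1 * (p0 / d)) := by
        unfold lin
        simp only [map_mul, map_add]
        ring
      rw [this, e1, e2]
      unfold lin
      simp
  have h2 := AlgHom.congr_fun this f
  rw [AlgHom.comp_apply, h, map_zero, AlgHom.id_apply] at h2
  exact h2.symm

theorem part1 (u v a b : K) (f : R2 K) : sh u v (sh a b f) = sh (a + u) (b + v) f := by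
  have : (sh u v).comp (sh a b) = sh (a + u) (b + v) := by
    apply alg_ext
    · rw [AlgHom.comp_apply, sh_t, sh_t, map_add, sh_t, alg_CC, map_add, map_add]
      ring
    · rw [AlgHom.comp_apply, sh_s, sh_s, map_add, sh_s, alg_CC, map_add, map_add]
      ring
  exact AlgHom.congr_fun this f

theorem part2 (f : R2 K) : sh 0 0 f = f := by
  have : sh (0 : K) 0 = AlgHom.id K (R2 K) := by
    apply alg_ext
    · rw [sh_t, AlgHom.id_apply, map_zero, map_zero, add_zero]
    · rw [sh_s, AlgHom.id_apply, map_zero, map_zero, add_zero]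
  rw [this, AlgHom.id_apply]

theorem part4 (m : ℕ) (f : R2 K) (p0 q0 p1 q1 : K) (hf : f ∈ Od m) :
    subt (lin p0 q0) (lin p1 q1) f ∈ Od m := by
  intro i j hij
  apply cof_subt
  apply hc_eq_zero
  intro i' j' h
  exact hf i' j' (by omega)

theorem part5 (D : ℕ) (f : R2 K) (p0 q0 p1 q1 : K) (hf : f ∈ De D) :
    subt (lin p0 q0) (lin p1 q1) f ∈ De D := by
  intro i j hij
  apply cof_subt
  apply hc_eq_zero
  intro i' j' h
  exact hf i' j' (by omega)

theorem t : Pool.Agent.Helper27.UC.S_SHF := by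
  intro K _ _
  exact ⟨part1, part2, part3, part4, part5, part6, part7, hc_subt, part9⟩

end Pool.Agent.Helper9.UC.SHF
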